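import Pool.Agent.H430R2.PermCubes.Upper
import Pool.Agent.H430R2.PermCubes.Lower
import Pool.Agent.H430R2.PermCubes.Two
import Pool.Agent.TH302.Cubes.Odd
import Pool.Agent.TH418.CubesEven

set_option autoImplicit false

/-!
# The value of `π_m(n)` for all `m ≥ n` except `m = n = 6`

`π_m(2) = m - 1` and `π_m(n) = m + 1` for all `m ≥ n ≥ 3`, except possibly `m = n = 6`. The new
case is `n = 6`: `π_m(6) = m + 1` for every `m ≥ 7`.
-/

open Pool.Agent.H430R2.PermCubes

/-- For all `m ≥ n ≥ 2`, except `m = n = 6`, the largest size of a variational set of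
`m`-dimensional permutation cubes of order `n` is `m + 1`, except that it is `m - 1` for `n = 2`. -/
theorem Pool.Agent.Results.MP_c7a479_co.AllLargeDimensions.result :
    ∀ m n : ℕ, 2 ≤ n → n ≤ m → ¬ (m = 6 ∧ n = 6) →
      IsPi m n (if n = 2 then m - 1 else m + 1) := by
  intro m n hn hnm hex
  by_cases h6 : n = 6
  · subst h6
    have hm : 7 ≤ m := by omega
    rw [if_neg (by norm_num)]
    refine ⟨?_, ?_⟩
    · rcases Nat.even_or_odd m with he | ho
      · have h8 : 8 ≤ m := by
          rcases he with ⟨k, rfl⟩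
          omega
        exact Pool.Agent.TH418.CubesEven.exists_even h8 he
      · exact Pool.Agent.TH302.Cubes.exists_odd (by omega) ho
    · rintro k ⟨C, hC⟩
      exact IsArray.le_add_one hC.2 hn hnm
  · by_cases h2 : n = 2
    · subst h2
      rw [if_pos rfl]
      exact ⟨exists_vacuous m 2 (m - 1) (by norm_num) (by omega),
        fun k ⟨C, hC⟩ => two_le hC hnm⟩
    · rw [if_neg h2]
      refine ⟨exists_succ (by omega) (by omega) h2 h6, ?_⟩
      rintro k ⟨C, hC⟩
      exact IsArray.le_add_one hC.2 hn hnm
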