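import Pool.Agent.TH7.Cyc.Main
import Pool.Agent.TH302.Tarry.Upper

set_option autoImplicit false

/-!
# MP_c7a479_co: cyclic variational sets

A cyclic variational set is a variational set with a permutation of the cells that raises every
symbol of every cube by one.  For `m` even and `n ≡ 2 mod 4` it has at most `m` cubes; for order
six and every `m ≥ 4` the maximum is `m` (`m` even) and `m + 1` (`m` odd).
-/

namespace Pool.Agent.Results.MP_c7a479_co.CyclicOrderSix

open Pool.Agent.H430R2.PermCubes Pool.Agent.TH7.Cyc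

theorem result :
    -- the obstruction, for every even dimension and every order `2` modulo `4`
    (∀ m n : ℕ, Even m → n % 4 = 2 →
      (∀ C : Fin (m + 1) → (Fin m → Fin n) → Fin n, IsVariationalSet m n (m + 1) C →
        ∀ H : Fin (m + 1) → Finset (Fin n), (∀ i, 2 * (H i).card = n) →
          ¬ ∃ g : Equiv.Perm (Fin m → Fin n), ∀ i x, C i (g x) ∈ H i ↔ C i x ∉ H i) ∧
      ∀ k : ℕ, (∃ C : Fin k → (Fin m → Fin n) → Fin n, IsCyclicSet m n k C) → k ≤ m) ∧
    -- the maximum for order six, in every dimension at least four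
    (∀ m : ℕ, 4 ≤ m → Even m →
      IsGreatest {k : ℕ | ∃ C : Fin k → (Fin m → Fin 6) → Fin 6, IsCyclicSet m 6 k C} m) ∧
    (∀ m : ℕ, 4 ≤ m → Odd m →
      IsGreatest {k : ℕ | ∃ C : Fin k → (Fin m → Fin 6) → Fin 6, IsCyclicSet m 6 k C}
        (m + 1)) := by
  refine ⟨?_, ?_, ?_⟩
  · intro m n hm hn
    refine ⟨fun C h H hH hg => ?_, ?_⟩
    · obtain ⟨g, hg⟩ := hg
      exact no_flip hm hn h H hH g hg
    · rintro k ⟨C, hC⟩
      exact cyc_le hm hn hC
  · intro m hm he
    refine ⟨exists_cyc_even hm he, ?_⟩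
    rintro k ⟨C, hC⟩
    exact cyc_le he (by norm_num) hC
  · intro m hm ho
    have h5 : 5 ≤ m := by
      obtain ⟨r, hr⟩ := ho
      omega
    refine ⟨exists_cyc_odd h5 ho, ?_⟩
    rintro k ⟨C, hC⟩
    exact Pool.Agent.TH302.Tarry.le_of_array hC.1.2 (by omega)

end Pool.Agent.Results.MP_c7a479_co.CyclicOrderSix
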