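import Pool.Agent.TH853.Six

set_option autoImplicit false

/-!
# Variational cubes of order six

`m` jointly bijective `m`-dimensional permutation cubes of order `n` exist for all `m ≥ 3` and all
`n ≥ 3`, including `n = 6`, the order for which no pair of orthogonal latin squares exists.
-/

open Pool.Agent.H430R2.PermCubes

/-- For all `m ≥ 3` and `n ≥ 2`, a variational cube (`m` permutation cubes of dimension `m` and
order `n` which together form a bijection of `[n]^m`) exists if and only if `n ≠ 2`; in particular
it exists for order six. -/
theorem Pool.Agent.Results.MP_c7a479_co.OrderSix.result :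
    ∀ m n : ℕ, 3 ≤ m → 2 ≤ n →
      ((∃ C : Fin m → (Fin m → Fin n) → Fin n, IsVariationalSet m n m C) ↔ n ≠ 2) := by
  intro m n hm hn
  constructor
  · rintro ⟨C, hC⟩ rfl
    have := two_le hC (by omega)
    omega
  · intro h2
    by_cases h6 : n = 6
    · subst h6
      exact Pool.Agent.TH853.Six.exists_six hm
    · obtain ⟨C, hC⟩ := exists_succ hm (by omega) h2 h6
      exact ⟨_, Pool.Agent.TH853.Six.mono (Nat.le_succ m) hC⟩
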