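import Pool.Agent.TH302.Cubes.Odd
import Pool.Agent.TH302.Tarry.Upper

set_option autoImplicit false

/-!
# Order six: `π_m(6) ≤ m + 1` for every `m ≥ 2`, and `π_5(6) = 6`
-/

open Pool.Agent.H430R2.PermCubes

/-- A variational set of permutation cubes of dimension `m ≥ 2` and order six has at most `m + 1`
members, for every `m ≥ 2`; and the largest size of a variational set of five-dimensional
permutation cubes of order six is six. -/
theorem Pool.Agent.Results.MP_c7a479_co.OrderSixDimensionFive.result :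
    (∀ m k : ℕ, 2 ≤ m → ∀ C : Fin k → (Fin m → Fin 6) → Fin 6,
      IsVariationalSet m 6 k C → k ≤ m + 1) ∧
    IsPi 5 6 6 := by
  have hup : ∀ m k : ℕ, 2 ≤ m → ∀ C : Fin k → (Fin m → Fin 6) → Fin 6,
      IsVariationalSet m 6 k C → k ≤ m + 1 := fun m k hm C hC =>
    Pool.Agent.TH302.Tarry.le_of_array hC.2 hm
  refine ⟨hup, Pool.Agent.TH302.Cubes.exists_odd (m := 5) le_rfl (by decide), ?_⟩
  rintro k ⟨C, hC⟩
  exact hup 5 k (by norm_num) C hC
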